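import Mathlib
import Pool.Agent.H2.EL.Def

/-!
Mean square of a bounded function against all Dirichlet characters mod `p` at a product of affine forms.
-/

set_option autoImplicit false

open Finset Polynomial

namespace Pool.H37.CM

open Pool.H2.EL

/-- residues below `x` in one class -/
lemma card_class (p x : ℕ) [NeZero p] (a : ZMod p) :
    ((range x).filter (fun t : ℕ => (t : ZMod p) = a)).card ≤ x / p + 1 := by
  classical
  have hp : 0 < p := Nat.pos_of_ne_zero (NeZero.ne p)
  have h1 : ((range x).filter (fun t : ℕ => (t : ZMod p) = a)).card ≤ (range (x / p + 1)).card := by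
    refine card_le_card_of_injOn (fun t => t / p) (fun t ht => ?_) (fun t ht t' ht' h => ?_)
    · rw [mem_coe, mem_filter, mem_range] at ht
      rw [mem_coe, mem_range]
      exact Nat.lt_succ_of_le (Nat.div_le_div_right ht.1.le)
    · rw [mem_coe, mem_filter] at ht ht'
      have h2 : (t : ZMod p) = (t' : ZMod p) := ht.2.trans ht'.2.symm
      rw [ZMod.natCast_eq_natCast_iff'] at h2
      have h3 := Nat.div_add_mod t p
      have h4 := Nat.div_add_mod t' p
      have h5 : t / p = t' / p := h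
      rw [h5, h2] at h3
      omega
  rwa [card_range] at h1

/-- integers below `x` in a set of classes -/
lemma card_classes (p x : ℕ) [NeZero p] (s : Finset (ZMod p)) :
    ((range x).filter (fun t : ℕ => (t : ZMod p) ∈ s)).card ≤ s.card * (x / p + 1) := by
  classical
  have h1 : (range x).filter (fun t : ℕ => (t : ZMod p) ∈ s) ⊆
      s.biUnion (fun a => (range x).filter (fun t : ℕ => (t : ZMod p) = a)) := by
    intro t ht
    rw [mem_filter] at ht
    rw [mem_biUnion]
    exact ⟨(t : ZMod p), ht.2, mem_filter.2 ⟨ht.1, rfl⟩⟩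
  refine (card_le_card h1).trans (card_biUnion_le.trans ?_)
  refine (sum_le_sum fun a _ => card_class p x a).trans ?_
  rw [sum_const, smul_eq_mul]

variable {r : ℕ}

/-- the value of the product of forms with signs -/
def val (p : ℕ) (A C : Fin r → ℕ) (c : Fin r → Bool) (t : ℕ) : ZMod p :=
  ∏ l, (if c l then ((A l * t + C l : ℕ) : ZMod p) else ((A l * t + C l : ℕ) : ZMod p)⁻¹)

/-- few solutions of `R(t) = ρ` -/
lemma card_val (p : ℕ) [Fact p.Prime] {H h0 : ℕ} (hpH : H * (H + h0) < p) (hr : 1 ≤ r) {A C : Fin r → ℕ}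
    (hA : ∀ l, 1 ≤ A l ∧ A l ≤ H) (hC : ∀ l, C l ≤ H + h0)
    (hne : ∀ l l', l ≠ l' → A l * C l' ≠ A l' * C l) (c : Fin r → Bool) (x : ℕ) {ρ : ZMod p}
    (hρ : ρ ≠ 0) :
    ((range x).filter (fun t : ℕ => val p A C c t = ρ)).card ≤ r * (x / p + 1) := by
  classical
  have hHpos : 1 ≤ H := (hA ⟨0, hr⟩).1.trans (hA ⟨0, hr⟩).2
  have hHp : H < p := by
    refine lt_of_le_of_lt ?_ hpH
    nlinarith [Nat.zero_le h0]
  have hA0 : ∀ l, (A l : ZMod p) ≠ 0 := by
    intro l h
    rw [ZMod.natCast_eq_zero_iff] at h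
    have h1 := Nat.le_of_dvd (hA l).1 h
    have h2 := (hA l).2
    omega
  obtain ⟨P, hP⟩ : ∃ P : Polynomial (ZMod p),
      P = ∏ l ∈ univ.filter (fun l => c l = true), (Polynomial.C (A l : ZMod p) * X + Polynomial.C (C l : ZMod p)) :=
    ⟨_, rfl⟩
  obtain ⟨M, hM⟩ : ∃ M : Polynomial (ZMod p),
      M = ∏ l ∈ univ.filter (fun l => ¬ c l = true), (Polynomial.C (A l : ZMod p) * X + Polynomial.C (C l : ZMod p)) :=
    ⟨_, rfl⟩
  have hdeg : ∀ s : Finset (Fin r), (∏ l ∈ s, (Polynomial.C (A l : ZMod p) * X +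
      Polynomial.C (C l : ZMod p))).natDegree ≤ r := by
    intro s
    refine (natDegree_prod_le _ _).trans ?_
    refine (sum_le_sum (g := fun _ => 1) fun l _ => natDegree_linear_le).trans ?_
    rw [sum_const, smul_eq_mul, mul_one]
    exact (card_le_univ s).trans (by rw [Fintype.card_fin])
  obtain ⟨F, hF⟩ : ∃ F : Polynomial (ZMod p), F = P - Polynomial.C ρ * M := ⟨_, rfl⟩
  have hFdeg : F.natDegree ≤ r := by
    rw [hF]
    refine (natDegree_sub_le _ _).trans (max_le ?_ ?_)
    · rw [hP]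
      exact hdeg _
    · refine (natDegree_C_mul_le _ _).trans ?_
      rw [hM]
      exact hdeg _
  have hevP : ∀ z : ZMod p, P.eval z = ∏ l ∈ univ.filter (fun l => c l = true), ((A l : ZMod p) * z + C l) := by
    intro z
    rw [hP, eval_prod]
    refine prod_congr rfl fun l _ => ?_
    simp
  have hevM : ∀ z : ZMod p, M.eval z = ∏ l ∈ univ.filter (fun l => ¬ c l = true), ((A l : ZMod p) * z + C l) := by
    intro z
    rw [hM, eval_prod]
    refine prod_congr rfl fun l _ => ?_
    simp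
  -- the root of the first form
  obtain ⟨l0, hl0⟩ : ∃ l0 : Fin r, l0 = ⟨0, hr⟩ := ⟨_, rfl⟩
  obtain ⟨z, hz⟩ : ∃ z : ZMod p, z = -(C l0 : ZMod p) / (A l0 : ZMod p) := ⟨_, rfl⟩
  have hz0 : (A l0 : ZMod p) * z + C l0 = 0 := by
    rw [hz, mul_div_cancel₀ _ (hA0 l0)]
    ring
  have hznz : ∀ l, l ≠ l0 → (A l : ZMod p) * z + C l ≠ 0 := by
    intro l hl h
    have h1 : ((A l0 * C l : ℕ) : ZMod p) = ((A l * C l0 : ℕ) : ZMod p) := by
      have h2 : (A l0 : ZMod p) * ((A l : ZMod p) * z + C l) =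
          (A l : ZMod p) * ((A l0 : ZMod p) * z + C l0) := by rw [h, hz0]; ring
      push_cast
      have h3 : (A l0 : ZMod p) * C l - (A l : ZMod p) * C l0 = 0 := by linear_combination h2
      exact sub_eq_zero.1 h3
    rw [ZMod.natCast_eq_natCast_iff'] at h1
    have h2 : ∀ l l', A l * C l' < p := fun l l' =>
      lt_of_le_of_lt (Nat.mul_le_mul (hA l).2 (hC l')) hpH
    rw [Nat.mod_eq_of_lt (h2 _ _), Nat.mod_eq_of_lt (h2 _ _)] at h1
    exact hne l0 l (Ne.symm hl) h1
  have hF0 : F ≠ 0 := by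
    intro h
    have h1 : F.eval z = 0 := by rw [h, eval_zero]
    rw [hF, eval_sub, eval_mul, eval_C, hevP, hevM] at h1
    by_cases hc : c l0 = true
    · have h2 : ∏ l ∈ univ.filter (fun l => c l = true), ((A l : ZMod p) * z + C l) = 0 :=
        prod_eq_zero (mem_filter.2 ⟨mem_univ l0, hc⟩) hz0
      rw [h2, zero_sub, neg_eq_zero, mul_eq_zero] at h1
      rcases h1 with h1 | h1
      · exact hρ h1
      · rw [prod_eq_zero_iff] at h1
        obtain ⟨l, hl, h3⟩ := h1
        refine hznz l ?_ h3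
        rintro rfl
        exact (mem_filter.1 hl).2 hc
    · have h2 : ∏ l ∈ univ.filter (fun l => ¬ c l = true), ((A l : ZMod p) * z + C l) = 0 :=
        prod_eq_zero (mem_filter.2 ⟨mem_univ l0, hc⟩) hz0
      rw [h2, mul_zero, sub_zero, prod_eq_zero_iff] at h1
      obtain ⟨l, hl, h3⟩ := h1
      refine hznz l ?_ h3
      rintro rfl
      exact hc (mem_filter.1 hl).2
  have hsub : (range x).filter (fun t : ℕ => val p A C c t = ρ) ⊆
      (range x).filter (fun t : ℕ => (t : ZMod p) ∈ F.roots.toFinset) := by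
    intro t ht
    rw [mem_filter] at ht ⊢
    refine ⟨ht.1, ?_⟩
    rw [Multiset.mem_toFinset, mem_roots hF0, IsRoot.def, hF, eval_sub, eval_mul, eval_C, hevP, hevM]
    have h1 : val p A C c t = (∏ l ∈ univ.filter (fun l => c l = true), ((A l : ZMod p) * t + C l)) *
        (∏ l ∈ univ.filter (fun l => ¬ c l = true), ((A l : ZMod p) * t + C l))⁻¹ := by
      unfold val
      rw [prod_ite, ← prod_inv_distrib]
      push_cast
      rfl
    rw [h1] at ht
    have h2 : (∏ l ∈ univ.filter (fun l => ¬ c l = true), ((A l : ZMod p) * t + C l)) ≠ 0 := by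
      intro h
      rw [h, inv_zero, mul_zero] at ht
      exact hρ ht.2.symm
    rw [← ht.2, mul_assoc, inv_mul_cancel₀ h2, mul_one, sub_self]
  refine (card_le_card hsub).trans ((card_classes p x _).trans (Nat.mul_le_mul_right _ ?_))
  exact (Multiset.toFinset_card_le _).trans ((card_roots' _).trans hFdeg)

lemma cj_chi (p : ℕ) [Fact p.Prime] (c : Bool) (χ : DirichletCharacter ℂ p) (y : ZMod p) :
    cj c (χ y) = χ (if c then y else y⁻¹) := by
  unfold cj
  cases c
  · rw [if_neg (by simp), if_neg (by simp), ← MulChar.inv_apply', ← MulChar.star_apply']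
    rfl
  · rw [if_pos rfl, if_pos rfl]

/-- mean square over the characters -/
theorem ms (p : ℕ) [Fact p.Prime] {H h0 : ℕ} (hpH : H * (H + h0) < p) (hr : 1 ≤ r) {A C : Fin r → ℕ}
    (hA : ∀ l, 1 ≤ A l ∧ A l ≤ H) (hC : ∀ l, C l ≤ H + h0)
    (hne : ∀ l l', l ≠ l' → A l * C l' ≠ A l' * C l) (c : Fin r → Bool) (x : ℕ)
    (b : ℕ → ℂ) (hb : ∀ t, ‖b t‖ ≤ 1) :
    ∑ χ : DirichletCharacter ℂ p, ‖∑ t ∈ range x, b t *
      ∏ l, cj (c l) (χ ((A l * t + C l : ℕ) : ZMod p))‖ ^ 2 ≤ (p : ℝ) * (x * (r * (x / p + 1) : ℕ)) := by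
  classical
  have hval : ∀ (χ : DirichletCharacter ℂ p) (t : ℕ),
      ∏ l, cj (c l) (χ ((A l * t + C l : ℕ) : ZMod p)) = χ (val p A C c t) := by
    intro χ t
    unfold val
    rw [map_prod]
    exact prod_congr rfl fun l _ => cj_chi p (c l) χ _
  have hsum : ∀ t t' : ℕ, ∑ χ : DirichletCharacter ℂ p, χ (val p A C c t) *
      (starRingEnd ℂ) (χ (val p A C c t')) =
      if val p A C c t' ≠ 0 ∧ val p A C c t = val p A C c t' then (p.totient : ℂ) else 0 := by
    intro t t'
    by_cases h0 : val p A C c t' = 0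
    · rw [if_neg (fun h => h.1 h0), h0]
      refine sum_eq_zero fun χ _ => ?_
      rw [MulChar.map_zero, map_zero, mul_zero]
    · have h1 := DirichletCharacter.sum_char_inv_mul_char_eq ℂ (IsUnit.mk0 _ h0) (val p A C c t)
      have h2 : ∑ χ : DirichletCharacter ℂ p, χ (val p A C c t) *
          (starRingEnd ℂ) (χ (val p A C c t')) =
          ∑ χ : DirichletCharacter ℂ p, χ (val p A C c t')⁻¹ * χ (val p A C c t) := by
        refine sum_congr rfl fun χ _ => ?_
        rw [mul_comm]
        congr 1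
        rw [← MulChar.inv_apply', ← MulChar.star_apply']
        rfl
      rw [h2, h1]
      by_cases h3 : val p A C c t' = val p A C c t
      · rw [if_pos h3, if_pos ⟨h0, h3.symm⟩]
      · rw [if_neg h3, if_neg (fun h => h3 h.2.symm)]
  have hC1 : ((∑ χ : DirichletCharacter ℂ p, ‖∑ t ∈ range x, b t *
      ∏ l, cj (c l) (χ ((A l * t + C l : ℕ) : ZMod p))‖ ^ 2 : ℝ) : ℂ) =
      ∑ t' ∈ range x, ∑ t ∈ range x, b t * (starRingEnd ℂ) (b t') *
        (if val p A C c t' ≠ 0 ∧ val p A C c t = val p A C c t' then (p.totient : ℂ) else 0) := by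
    push_cast
    have h1 : ∀ χ : DirichletCharacter ℂ p, ((‖∑ t ∈ range x, b t *
        ∏ l, cj (c l) (χ ((A l * t + C l : ℕ) : ZMod p))‖ : ℂ)) ^ 2 =
        ∑ t' ∈ range x, ∑ t ∈ range x, b t * (starRingEnd ℂ) (b t') *
          (χ (val p A C c t) * (starRingEnd ℂ) (χ (val p A C c t'))) := by
      intro χ
      rw [← Complex.mul_conj', map_sum, sum_mul_sum, sum_comm]
      refine sum_congr rfl fun t' _ => sum_congr rfl fun t _ => ?_
      rw [hval, hval, map_mul]
      ring
    have h1' := fun χ : DirichletCharacter ℂ p => h1 χ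
    push_cast at h1'
    rw [sum_congr rfl fun χ _ => h1' χ, sum_comm]
    refine sum_congr rfl fun t' _ => ?_
    rw [sum_comm]
    refine sum_congr rfl fun t _ => ?_
    rw [← mul_sum, hsum]
  have hR : ∑ χ : DirichletCharacter ℂ p, ‖∑ t ∈ range x, b t *
      ∏ l, cj (c l) (χ ((A l * t + C l : ℕ) : ZMod p))‖ ^ 2 =
      ‖((∑ χ : DirichletCharacter ℂ p, ‖∑ t ∈ range x, b t *
      ∏ l, cj (c l) (χ ((A l * t + C l : ℕ) : ZMod p))‖ ^ 2 : ℝ) : ℂ)‖ := by
    rw [Complex.norm_real, Real.norm_of_nonneg (sum_nonneg fun χ _ => by positivity)]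
  rw [hR, hC1]
  refine (norm_sum_le _ _).trans ?_
  have hin : ∀ t' ∈ range x, ‖∑ t ∈ range x, b t * (starRingEnd ℂ) (b t') *
        (if val p A C c t' ≠ 0 ∧ val p A C c t = val p A C c t' then (p.totient : ℂ) else 0)‖ ≤
        p * (r * (x / p + 1) : ℕ) := by
    intro t' _
    by_cases h0 : val p A C c t' = 0
    · have : ∑ t ∈ range x, b t * (starRingEnd ℂ) (b t') *
        (if val p A C c t' ≠ 0 ∧ val p A C c t = val p A C c t' then (p.totient : ℂ) else 0) = 0 := by
        refine sum_eq_zero fun t _ => ?_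
        rw [if_neg (fun h => h.1 h0), mul_zero]
      rw [this, norm_zero]
      positivity
    · refine (norm_sum_le _ _).trans ?_
      have h1 : ∀ t ∈ range x, ‖b t * (starRingEnd ℂ) (b t') *
          (if val p A C c t' ≠ 0 ∧ val p A C c t = val p A C c t' then (p.totient : ℂ) else 0)‖ ≤
          if val p A C c t = val p A C c t' then (p : ℝ) else 0 := by
        intro t _
        rw [norm_mul, norm_mul, RCLike.norm_conj]
        have h2 : ‖b t‖ * ‖b t'‖ ≤ 1 := mul_le_one₀ (hb t) (norm_nonneg _) (hb t')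
        by_cases h3 : val p A C c t = val p A C c t'
        · rw [if_pos ⟨h0, h3⟩, if_pos h3, Complex.norm_natCast]
          have h4 : (p.totient : ℝ) ≤ p := by exact_mod_cast Nat.totient_le p
          have h5 : (0 : ℝ) ≤ p.totient := Nat.cast_nonneg _
          nlinarith [mul_nonneg (norm_nonneg (b t)) (norm_nonneg (b t'))]
        · rw [if_neg (fun h => h3 h.2), if_neg h3, norm_zero, mul_zero]
      refine (sum_le_sum h1).trans ?_
      rw [← sum_filter, sum_const, nsmul_eq_mul, mul_comm]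
      refine mul_le_mul_of_nonneg_left ?_ (Nat.cast_nonneg _)
      exact_mod_cast card_val p hpH hr hA hC hne c x h0
  refine (sum_le_sum hin).trans ?_
  rw [sum_const, card_range, nsmul_eq_mul]
  refine le_of_eq ?_
  ring

end Pool.H37.CM
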