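import Mathlib
import Pool.Agent.H2.BS.Det
import Pool.Agent.H37.CM.Ms

/-!
All but boundedly many Dirichlet characters mod `p`: at every scale `N ≥ p` and for all bounded functions `d`, all but
`K` characters `χ` mod `p` are such that `d j * χ` has small correlations with ALL multiplicative cofactors.
-/

set_option autoImplicit false

open Finset

namespace Pool.H37.CM

open Pool.H2.EL Pool.H2.BS Pool.Agent.H1.LP

/-- a bad configuration -/
lemma bad_conf (h0 H : ℕ) {δ : ℝ} (hδ : 0 < δ) {R : ℕ} (hR : 4 / δ ≤ R) {N : ℕ} (hN1 : 1 ≤ N)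
    (hN : 4 / δ ≤ N) (ζ : ℕ → ℂ) (hb : ∀ n, ‖ζ n‖ ≤ 1) (w : ℕ → ℂ) (hw : ∀ n, ‖w n‖ ≤ 1)
    (hcon : ¬ Unc (fun n => w n * ζ (n + h0)) h0 H N δ) :
    ∃ y : Cf H × Fin (R + 1), y.1.Ok h0 ∧ δ / 2 * N < ‖∑ t ∈ range (N * y.2 / R),
        (∏ l, cj (y.1.2.2.2 l) (w ((y.1.2.1 l : ℕ) * t + (y.1.2.2.1 l : ℕ)))) *
        ∏ l, cj (y.1.2.2.2 l) (ζ ((y.1.2.1 l : ℕ) * t + ((y.1.2.2.1 l : ℕ) + h0)))‖ := by
  have hRpos : (0 : ℝ) < R := lt_of_lt_of_le (by positivity) hR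
  have hRpos' : 0 < R := by exact_mod_cast hRpos
  have hN4 : 1 ≤ δ / 4 * N := by
    rw [div_le_iff₀ hδ] at hN
    linarith
  have h3 := hcon
  unfold Unc at h3
  push Not at h3
  obtain ⟨r, hr, hrH, A, B, c, hA, hB, hne, x, hx, hbig⟩ := h3
  obtain ⟨j, hj⟩ : ∃ j : ℕ, j = x * R / N := ⟨_, rfl⟩
  have hjR : j ≤ R := by
    rw [hj]
    refine Nat.div_le_of_le_mul ?_
    exact Nat.mul_le_mul_right _ hx
  refine ⟨⟨⟨⟨r, by omega⟩, fun l => ⟨A l, by have := (hA l).2; omega⟩,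
    fun l => ⟨B l, by have := hB l; omega⟩, c⟩, ⟨j, by omega⟩⟩, ⟨hr, fun l => (hA l).1, hne⟩, ?_⟩
  have hjx : N * j / R ≤ x := by
    refine Nat.div_le_of_le_mul ?_
    rw [hj]
    calc N * (x * R / N) ≤ x * R := Nat.mul_div_le _ _
      _ = R * x := mul_comm _ _
  have hjx2 : (x : ℝ) ≤ (N * j / R : ℕ) + δ / 2 * N := by
    have e1 : (x : ℝ) * R < N * (j + 1) := by
      have : x * R < N * (x * R / N + 1) := by
        have e0 := Nat.lt_div_mul_add (a := x * R) (b := N) (by omega)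
        nlinarith
      rw [hj]
      exact_mod_cast this
    have e2 : (N : ℝ) * j < R * ((N * j / R : ℕ) + 1) := by
      have : N * j < R * (N * j / R + 1) := by
        have e0 := Nat.lt_div_mul_add (a := N * j) (b := R) hRpos'
        nlinarith
      exact_mod_cast this
    have e3 : (N : ℝ) ≤ δ / 4 * N * R := by
      rw [div_le_iff₀ hδ] at hR
      have : (0 : ℝ) ≤ N := Nat.cast_nonneg N
      nlinarith
    have e4 : (x : ℝ) * R ≤ ((N * j / R : ℕ) + δ / 2 * N) * R := by nlinarith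
    exact le_of_mul_le_mul_right e4 hRpos
  have hterm : ∀ t : ℕ, ‖∏ l, cj (c l) (w (A l * t + B l) * ζ (A l * t + B l + h0))‖ ≤ 1 := by
    intro t
    rw [norm_prod]
    refine prod_le_one (fun _ _ => norm_nonneg _) fun l _ => ?_
    rw [cj_norm, norm_mul]
    exact mul_le_one₀ (hw _) (norm_nonneg _) (hb _)
  have hsplit : ‖∑ t ∈ range x, ∏ l, cj (c l) (w (A l * t + B l) * ζ (A l * t + B l + h0))‖ ≤
      ‖∑ t ∈ range (N * j / R), ∏ l, cj (c l) (w (A l * t + B l) *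
        ζ (A l * t + B l + h0))‖ + δ / 2 * N := by
    obtain ⟨s, hs⟩ : ∃ s, x = N * j / R + s := ⟨x - N * j / R, by omega⟩
    rw [hs, sum_range_add]
    refine (norm_add_le _ _).trans (add_le_add_right ?_ _)
    refine (norm_sum_le _ _).trans ((sum_le_sum fun t _ => hterm _).trans ?_)
    rw [sum_const, card_range, nsmul_eq_mul, mul_one]
    have : (x : ℝ) = (N * j / R : ℕ) + s := by exact_mod_cast hs
    linarith
  have h4 : δ / 2 * N < ‖∑ t ∈ range (N * j / R), ∏ l, cj (c l) (w (A l * t + B l) *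
        ζ (A l * t + B l + h0))‖ := by linarith
  refine lt_of_lt_of_le h4 (le_of_eq ?_)
  congr 1
  refine sum_congr rfl fun t _ => ?_
  rw [← prod_mul_distrib]
  refine prod_congr rfl fun l _ => ?_
  rw [cj_mul, add_assoc]

lemma card_char_le (p : ℕ) [Fact p.Prime] (s : Finset (DirichletCharacter ℂ p)) : s.card ≤ p := by
  refine (card_le_univ s).trans ?_
  rw [← Nat.card_eq_fintype_card, DirichletCharacter.card_eq_totient_of_hasEnoughRootsOfUnity ℂ p]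
  exact Nat.totient_le p

/-- bounded number of exceptions, correlations with itself -/
theorem pigC (h0 H : ℕ) {δ : ℝ} (hδ : 0 < δ) :
    ∃ K : ℕ, ∀ (p : ℕ) [Fact p.Prime] (N : ℕ), 1 ≤ N → ∀ w : ℕ → ℂ, (∀ n, ‖w n‖ ≤ 1) →
      ∀ s : Finset (DirichletCharacter ℂ p),
      (∀ χ ∈ s, ¬ Unc (fun n => w n * χ ((n + h0 : ℕ) : ZMod p)) h0 H N δ) →
      s.card ≤ K * (p / N + 1) := by
  classical
  obtain ⟨R, hR⟩ := exists_nat_ge (4 / δ)
  obtain ⟨M, hM⟩ := exists_nat_ge (8 * H / δ ^ 2)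
  refine ⟨H * (H + h0) + R + Fintype.card (Cf H × Fin (R + 1)) * M,
    fun p _ N hN1 w hw s hs => ?_⟩
  have hp : p.Prime := Fact.out
  by_cases hp0 : p ≤ H * (H + h0)
  · calc s.card ≤ p := card_char_le p s
      _ ≤ (H * (H + h0) + R + Fintype.card (Cf H × Fin (R + 1)) * M) * 1 := by omega
      _ ≤ _ := Nat.mul_le_mul_left _ (Nat.le_add_left 1 _)
  push Not at hp0
  have hpN : p < N * (p / N + 1) := by
    have e0 := Nat.lt_div_mul_add (a := p) (b := N) (by omega)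
    nlinarith
  by_cases hN : (N : ℝ) < 4 / δ
  · have h1 : N ≤ R := by
      have : (N : ℝ) ≤ R := hN.le.trans hR
      exact_mod_cast this
    calc s.card ≤ p := card_char_le p s
      _ ≤ N * (p / N + 1) := hpN.le
      _ ≤ (H * (H + h0) + R + Fintype.card (Cf H × Fin (R + 1)) * M) * (p / N + 1) :=
        Nat.mul_le_mul_right _ (by omega)
  push Not at hN
  have hbad : ∀ χ ∈ s, ∃ y : Cf H × Fin (R + 1), y.1.Ok h0 ∧ δ / 2 * N <
      ‖∑ t ∈ range (N * y.2 / R),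
        (∏ l, cj (y.1.2.2.2 l) (w ((y.1.2.1 l : ℕ) * t + (y.1.2.2.1 l : ℕ)))) *
        ∏ l, cj (y.1.2.2.2 l) (χ (((y.1.2.1 l : ℕ) * t + ((y.1.2.2.1 l : ℕ) + h0) : ℕ) : ZMod p))‖ :=
    fun χ hχ => bad_conf h0 H hδ hR hN1 hN (fun n => χ (n : ZMod p))
      (fun n => DirichletCharacter.norm_le_one χ _) w hw (hs χ hχ)
  have hcov : s ⊆ (univ : Finset (Cf H × Fin (R + 1))).biUnion (fun y =>
      s.filter (fun χ => y.1.Ok h0 ∧ δ / 2 * N < ‖∑ t ∈ range (N * y.2 / R),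
        (∏ l, cj (y.1.2.2.2 l) (w ((y.1.2.1 l : ℕ) * t + (y.1.2.2.1 l : ℕ)))) *
        ∏ l, cj (y.1.2.2.2 l) (χ (((y.1.2.1 l : ℕ) * t + ((y.1.2.2.1 l : ℕ) + h0) : ℕ) : ZMod p))‖)) := by
    intro χ hχ
    obtain ⟨y, hy⟩ := hbad χ hχ
    exact mem_biUnion.2 ⟨y, mem_univ _, mem_filter.2 ⟨hχ, hy⟩⟩
  have hfib : ∀ y : Cf H × Fin (R + 1), (s.filter (fun χ => y.1.Ok h0 ∧ δ / 2 * N <
      ‖∑ t ∈ range (N * y.2 / R),
        (∏ l, cj (y.1.2.2.2 l) (w ((y.1.2.1 l : ℕ) * t + (y.1.2.2.1 l : ℕ)))) *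
        ∏ l, cj (y.1.2.2.2 l) (χ (((y.1.2.1 l : ℕ) * t + ((y.1.2.2.1 l : ℕ) + h0) : ℕ) : ZMod p))‖)).card ≤
      M * (p / N + 1) := by
    intro y
    by_cases hok : y.1.Ok h0
    swap
    · rw [filter_false_of_mem (fun χ _ h => hok h.1), card_empty]
      exact Nat.zero_le _
    obtain ⟨x, hx⟩ : ∃ x : ℕ, x = N * y.2 / R := ⟨_, rfl⟩
    rw [← hx]
    have hxN : x ≤ N := by
      rw [hx]
      refine Nat.div_le_of_le_mul ?_
      rw [mul_comm]
      exact Nat.mul_le_mul_right _ (Nat.le_of_lt_succ y.2.2)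
    obtain ⟨T, hT⟩ : ∃ T : DirichletCharacter ℂ p → ℝ, T = fun χ => ‖∑ t ∈ range x,
        (∏ l, cj (y.1.2.2.2 l) (w ((y.1.2.1 l : ℕ) * t + (y.1.2.2.1 l : ℕ)))) *
        ∏ l, cj (y.1.2.2.2 l) (χ (((y.1.2.1 l : ℕ) * t + ((y.1.2.2.1 l : ℕ) + h0) : ℕ) : ZMod p))‖ :=
      ⟨_, rfl⟩
    have hms := ms p hp0 hok.1 (A := fun l => (y.1.2.1 l : ℕ)) (C := fun l => (y.1.2.2.1 l : ℕ) + h0)
      (fun l => ⟨hok.2.1 l, Nat.le_of_lt_succ (y.1.2.1 l).2⟩)
      (fun l => Nat.add_le_add_right (Nat.le_of_lt_succ (y.1.2.2.1 l).2) _) hok.2.2 y.1.2.2.2 x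
      (fun t => ∏ l, cj (y.1.2.2.2 l) (w ((y.1.2.1 l : ℕ) * t + (y.1.2.2.1 l : ℕ)))) (fun t => by
        rw [norm_prod]
        refine prod_le_one (fun _ _ => norm_nonneg _) fun l _ => ?_
        rw [cj_norm]
        exact hw _)
    have hms2 : ∑ χ : DirichletCharacter ℂ p, T χ ^ 2 ≤ (N : ℝ) * H * (N + p) := by
      rw [hT]
      refine hms.trans ?_
      have e1 : p * (x * (y.1.1 * (x / p + 1))) ≤ N * H * (N + p) := by
        have e2 : p * (x / p + 1) ≤ N + p := by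
          have := Nat.mul_div_le x p
          calc p * (x / p + 1) = p * (x / p) + p := by ring
            _ ≤ N + p := by omega
        have e3 : (y.1.1 : ℕ) ≤ H := Nat.le_of_lt_succ y.1.1.2
        calc p * (x * (y.1.1 * (x / p + 1))) = x * y.1.1 * (p * (x / p + 1)) := by ring
          _ ≤ N * H * (N + p) := Nat.mul_le_mul (Nat.mul_le_mul hxN e3) e2
      exact_mod_cast e1
    obtain ⟨F, hF⟩ : ∃ F : Finset (DirichletCharacter ℂ p),
      F = s.filter (fun χ => y.1.Ok h0 ∧ δ / 2 * N < T χ) := ⟨_, rfl⟩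
    have hFeq : (s.filter (fun χ => y.1.Ok h0 ∧ δ / 2 * N < ‖∑ t ∈ range x,
        (∏ l, cj (y.1.2.2.2 l) (w ((y.1.2.1 l : ℕ) * t + (y.1.2.2.1 l : ℕ)))) *
        ∏ l, cj (y.1.2.2.2 l) (χ (((y.1.2.1 l : ℕ) * t + ((y.1.2.2.1 l : ℕ) + h0) : ℕ) : ZMod p))‖)) = F := by
      rw [hF, hT]
    rw [hFeq]
    have hNr : (0 : ℝ) < N := by exact_mod_cast hN1
    have h5 : (F.card : ℝ) * (δ / 2 * N) ^ 2 ≤ (N : ℝ) * H * (N + p) := by
      refine le_trans ?_ hms2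
      have h6 : (F.card : ℝ) * (δ / 2 * N) ^ 2 = ∑ χ ∈ F, (δ / 2 * N) ^ 2 := by
        rw [sum_const, nsmul_eq_mul]
      rw [h6]
      refine (sum_le_sum (g := fun χ => T χ ^ 2) fun χ hχ => ?_).trans
        (sum_le_sum_of_subset_of_nonneg (subset_univ F) fun χ _ _ => sq_nonneg _)
      rw [hF, mem_filter] at hχ
      exact pow_le_pow_left₀ (by positivity) hχ.2.2.le 2
    have h7 : (F.card : ℝ) ≤ (M * (p / N + 1) : ℕ) := by
      have h8 : (p : ℝ) ≤ N * ((p / N : ℕ) + 1) := by exact_mod_cast hpN.le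
      have h9 : (N : ℝ) * H * (N + p) ≤ N * H * (2 * (N * ((p / N : ℕ) + 1))) := by
        have h10 : (0 : ℝ) ≤ (p / N : ℕ) := Nat.cast_nonneg _
        have h11 : (N : ℝ) + p ≤ 2 * (N * ((p / N : ℕ) + 1)) := by nlinarith
        exact mul_le_mul_of_nonneg_left h11 (by positivity)
      have h12 : (F.card : ℝ) * (δ ^ 2 * N ^ 2) ≤ 8 * H * ((p / N : ℕ) + 1) * N ^ 2 := by nlinarith
      have h13 : (F.card : ℝ) * δ ^ 2 ≤ 8 * H * ((p / N : ℕ) + 1) := by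
        have h14 : (0 : ℝ) < (N : ℝ) ^ 2 := by positivity
        refine le_of_mul_le_mul_right ?_ h14
        linarith
      have h15 : 8 * (H : ℝ) ≤ M * δ ^ 2 := by
        rwa [div_le_iff₀ (by positivity)] at hM
      have h16 : (F.card : ℝ) * δ ^ 2 ≤ (M * ((p / N : ℕ) + 1)) * δ ^ 2 := by
        refine h13.trans ?_
        have h17 : (0 : ℝ) ≤ (p / N : ℕ) + 1 := by positivity
        nlinarith
      have h18 := le_of_mul_le_mul_right h16 (by positivity)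
      push_cast
      linarith
    exact_mod_cast h7
  calc s.card ≤ _ := card_le_card hcov
    _ ≤ ∑ y : Cf H × Fin (R + 1), M * (p / N + 1) :=
      card_biUnion_le.trans (sum_le_sum fun y _ => hfib y)
    _ = Fintype.card (Cf H × Fin (R + 1)) * M * (p / N + 1) := by
      rw [sum_const, smul_eq_mul, card_univ]
      ring
    _ ≤ _ := Nat.mul_le_mul_right _ (by omega)

/-- All but `K (1 + p / N)` of the Dirichlet characters mod `p`. -/
theorem chm (k : ℕ) (h : Fin k → ℤ) (j : Fin k) (hne : ∀ i, i ≠ j → h i ≠ h j) {ε : ℝ}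
    (hε : 0 < ε) :
    ∃ K : ℕ, ∀ p : ℕ, p.Prime → ∀ N : ℕ, 1 ≤ N →
      ∀ (S : Finset (Fin k)), j ∉ S → ∀ d : Fin k → ArithmeticFunction ℂ, (∀ x n, ‖d x n‖ ≤ 1) →
      {χ : DirichletCharacter ℂ p | ¬ ∀ G : Fin k → ArithmeticFunction ℂ, (∀ x n, ‖G x n‖ ≤ 1) →
        (∀ x ∈ S, (G x).IsMultiplicative) → (∀ x, x ∉ S → x ≠ j → G x = d x) →
        (∀ n : ℕ, G j n = d j n * χ (n : ZMod p)) →
        ‖(1 / (N : ℂ)) * ∑ n ∈ Icc 1 N, ∏ x, G x ((n : ℤ) + h x).toNat‖ ≤ ε}.ncard ≤ K * (p / N + 1) := by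
  classical
  rcases k with _ | k
  · exact j.elim0
  obtain ⟨H, δ, N0, s, hδ, hs, hfin⟩ := fin_core k h j hne ε hε
  obtain ⟨K, hpig⟩ := pigC (h j + s).toNat H hδ
  refine ⟨N0 + K, fun p hp N hN1 S hjS d hd => ?_⟩
  have : Fact p.Prime := ⟨hp⟩
  obtain ⟨B, hB⟩ : ∃ B : Finset (DirichletCharacter ℂ p), B = univ.filter (fun χ =>
      ¬ ∀ G : Fin (k + 1) → ArithmeticFunction ℂ, (∀ x n, ‖G x n‖ ≤ 1) →
        (∀ x ∈ S, (G x).IsMultiplicative) → (∀ x, x ∉ S → x ≠ j → G x = d x) →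
        (∀ n : ℕ, G j n = d j n * χ (n : ZMod p)) →
        ‖(1 / (N : ℂ)) * ∑ n ∈ Icc 1 N, ∏ x, G x ((n : ℤ) + h x).toNat‖ ≤ ε) := ⟨_, rfl⟩
  have hBset : {χ : DirichletCharacter ℂ p | ¬ ∀ G : Fin (k + 1) → ArithmeticFunction ℂ,
        (∀ x n, ‖G x n‖ ≤ 1) →
        (∀ x ∈ S, (G x).IsMultiplicative) → (∀ x, x ∉ S → x ≠ j → G x = d x) →
        (∀ n : ℕ, G j n = d j n * χ (n : ZMod p)) →
        ‖(1 / (N : ℂ)) * ∑ n ∈ Icc 1 N, ∏ x, G x ((n : ℤ) + h x).toNat‖ ≤ ε} = (B : Set _) := by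
    ext χ
    rw [hB, coe_filter]
    simp
  rw [hBset, Set.ncard_coe_finset]
  by_cases hN : N < N0
  · have hpN : p < N * (p / N + 1) := by
      have e0 := Nat.lt_div_mul_add (a := p) (b := N) (by omega)
      nlinarith
    calc B.card ≤ p := card_char_le p B
      _ ≤ N * (p / N + 1) := hpN.le
      _ ≤ (N0 + K) * (p / N + 1) := Nat.mul_le_mul_right _ (by omega)
  push Not at hN
  refine (hpig p N hN1 (fun n => ∏ x ∈ univ \ S, d x (n + (h x + s).toNat)) (fun n => by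
      rw [norm_prod]
      exact prod_le_one (fun _ _ => norm_nonneg _) fun x _ => hd x _) B (fun χ hχ hU => ?_)).trans
    (Nat.mul_le_mul_right _ (by omega))
  rw [hB, mem_filter] at hχ
  refine hχ.2 fun G hG hGS hGd hGj => ?_
  refine hfin N hN G S hjS hG hGS ?_
  have h1 : (fun n => ∏ x ∈ univ \ S, G x (n + (h x + s).toNat)) =
      fun n => (∏ x ∈ univ \ S, d x (n + (h x + s).toNat)) * χ ((n + (h j + s).toNat : ℕ) : ZMod p) := by
    funext n
    have hjm : j ∈ univ \ S := by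
      rw [mem_sdiff]
      exact ⟨mem_univ _, hjS⟩
    rw [← mul_prod_erase _ _ hjm, ← mul_prod_erase _ (fun x => d x (n + (h x + s).toNat)) hjm,
      hGj]
    have h2 : ∏ x ∈ (univ \ S).erase j, G x (n + (h x + s).toNat) =
        ∏ x ∈ (univ \ S).erase j, d x (n + (h x + s).toNat) := by
      refine prod_congr rfl fun x hx => ?_
      rw [mem_erase, mem_sdiff] at hx
      rw [hGd x hx.2.2 hx.1]
    rw [h2]
    ring
  rw [h1]
  exact hU

end Pool.H37.CM
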